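import Pool.Agent.AE36.Defs

/-!
# Binary out-arborescences in tournaments of order one more: the first case
-/

namespace AE36

open Multiset AE32

variable {V : Type*} {R : V → V → Prop}

/-- the first case: the vertex `w` defeats the embedding at `a` -/
theorem case1_aux (hT : Tour R) {A B : BT} (hA : PD R A) (hB : PD R B) (hZ : B ≠ lf → ZL R B)
    {a b w q : V} {CA CB XA XB : Multiset V} {N : V → Prop}
    (hnd : (a ::ₘ b ::ₘ w ::ₘ q ::ₘ (XA + XB)).Nodup) (hXA : Bs R A CA XA) (hXB : Bs R B CB XB)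
    (haA : ∀ c ∈ CA, R a c) (hbB : ∀ c ∈ CB, R b c) (hab : R a b) (ha : N a) (hb : N b)
    (wA : ∀ c ∈ CA, R w c) (wq : R a q → R w q) (bw : R b w) (hq : R a q ∨ R b q) :
    In R (.node A B) N (a ::ₘ b ::ₘ w ::ₘ q ::ₘ (XA + XB)) := by
  have hnd' := hnd
  simp only [nodup_cons, mem_cons, mem_add, not_or, nodup_add] at hnd
  obtain ⟨⟨nab, naw, naq, naA, naB⟩, ⟨nbw, nbq, nbA, nbB⟩, ⟨nwq, nwA, nwB⟩, ⟨nqA, nqB⟩, ndA, ndB, ndd⟩ := hnd
  -- A at w, B-hole at b
  by_cases h1 : R b q ∨ ∃ c ∈ CB, R c q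
  · by_cases h2 : (∃ c ∈ CB, R c a) ∨ (R b q ∧ R q a)
    · refine in_mk hb ((hXA.rt wA).in bw) (hB CB XB q a (R b) ?_ hXB hbB ?_ (Or.inr h2)) ?_
      · simp [*, Ne.symm naq]
      · rcases h1 with h1 | h1
        · exact Or.inl h1
        · exact Or.inr (Or.inl h1)
      · simp only [← singleton_add]; abel
    · push Not at h2
      obtain ⟨h2, h3⟩ := h2
      -- `a` dominates `CB`
      have aB : ∀ c ∈ CB, R a c := hXB.dom hT naB h2
      have aq : R a q := by
        rcases hq with h | h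
        · exact h
        · exact (hT.tot a q naq).resolve_right (h3 h)
      have hwq := wq aq
      by_cases hlf : B = lf
      · subst hlf
        obtain ⟨rfl, rfl⟩ := hXB.leaf
        refine in_mk ha (hA CA XA w b (R a) ?_ hXA haA (Or.inr (Or.inr ⟨hab, bw⟩)) (Or.inl hab)) 
          ((rt_leaf q).in aq) ?_
        · simp [*, Ne.symm nbw]
        · simp only [← singleton_add]; abel
      · obtain ⟨r, S, u, v, h4, h5, h6, h7, h8⟩ := hZ hlf CB XB b w q (by simp [*]) hXB hbB hwq bw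
        have ar : R a r := by
          rcases h4 with rfl | h4
          · exact hab
          · exact aB r h4
        have hG : ∀ y, (y = b ∨ y = q ∨ y ∈ CB) → R a y := by
          rintro y (rfl | rfl | h)
          · exact hab
          · exact aq
          · exact aB y h
        have hu := hG u h7
        have e : a ::ₘ ((u ::ₘ v ::ₘ XA) + (r ::ₘ S)) = a ::ₘ b ::ₘ w ::ₘ q ::ₘ (XA + XB) := by
          simp only [← singleton_add] at h6 ⊢
          calc _ = {a} + XA + ({r} + ({u} + ({v} + S))) := by abel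
            _ = _ := by rw [h6]; abel
        refine in_mk ha (hA CA XA u v (R a) ?_ hXA haA (Or.inl hu) ?_) (h5.in ar) ?_
        · refine nodup_of_le ?_ hnd'
          rw [← e]
          exact (le_add_right _ _).trans (le_cons_self _ _)
        · rcases h8 with h8 | h8
          · exact Or.inl (hG v h8)
          · exact Or.inr (Or.inr ⟨hu, h8⟩)
        · exact e
  · push Not at h1
    obtain ⟨h1, h2⟩ := h1
    have aq : R a q := hq.resolve_right h1
    have qB : ∀ c ∈ CB, R q c := hXB.dom hT nqB h2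
    refine in_mk ha (hA CA XA w b (R a) ?_ hXA haA (Or.inr (Or.inr ⟨hab, bw⟩)) (Or.inl hab)) 
      ((hXB.rt qB).in aq) ?_
    · simp [*, Ne.symm nbw]
    · simp only [← singleton_add]; abel

/-- the first case: both vertices of the pool are dominated by `a` or `b` -/
theorem case1 (hT : Tour R) {A B : BT} (hA : PD R A) (hB : PD R B) (hZ : B ≠ lf → ZL R B)
    {a b p q : V} {CA CB XA XB : Multiset V} {N : V → Prop}
    (hnd : (a ::ₘ b ::ₘ p ::ₘ q ::ₘ (XA + XB)).Nodup) (hXA : Bs R A CA XA) (hXB : Bs R B CB XB)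
    (haA : ∀ c ∈ CA, R a c) (hbB : ∀ c ∈ CB, R b c) (hab : R a b) (ha : N a) (hb : N b)
    (hp : R a p ∨ R b p) (hq : R a q ∨ R b q) :
    In R (.node A B) N (a ::ₘ b ::ₘ p ::ₘ q ::ₘ (XA + XB)) := by
  have hnd' := hnd
  simp only [nodup_cons, mem_cons, mem_add, not_or, nodup_add] at hnd
  obtain ⟨⟨nab, nap, naq, naA, naB⟩, ⟨nbp, nbq, nbA, nbB⟩, ⟨npq, npA, npB⟩, ⟨nqA, nqB⟩, ndA, ndB, ndd⟩ := hnd
  by_cases h1 : R a p ∨ (∃ c ∈ CA, R c p) ∨ (R a q ∧ R q p)
  · by_cases h2 : R a q ∨ (∃ c ∈ CA, R c q) ∨ (R a p ∧ R p q)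
    · refine in_mk ha (hA CA XA p q (R a) ?_ hXA haA h1 h2) ((hXB.rt hbB).in hab) ?_
      · simp [*]
      · simp only [← singleton_add]; abel
    · push Not at h2
      obtain ⟨h2, h3, h4⟩ := h2
      have e : a ::ₘ b ::ₘ q ::ₘ p ::ₘ (XA + XB) = a ::ₘ b ::ₘ p ::ₘ q ::ₘ (XA + XB) := by
        rw [cons_swap q p]
      rw [← e] at hnd' ⊢
      exact case1_aux hT hA hB hZ hnd' hXA hXB haA hbB hab ha hb (hXA.dom hT nqA h3)
        (fun h => (hT.tot q p (Ne.symm npq)).resolve_right (h4 h)) (hq.resolve_left h2) hp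
  · push Not at h1
    obtain ⟨h1, h3, h4⟩ := h1
    exact case1_aux hT hA hB hZ hnd' hXA hXB haA hbB hab ha hb (hXA.dom hT npA h3)
      (fun h => (hT.tot p q npq).resolve_right (h4 h)) (hp.resolve_left h1) hq

end AE36
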