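import Pool.Agent.AE36.Defs

/-!
# Binary out-arborescences in tournaments of order one more: the second case
-/

namespace AE36

open Multiset AE32

variable {V : Type*} {R : V → V → Prop}

theorem in_chy {N : V → Prop} {x y z : V} (hx : N x) (xy : R x y) (xz : R x z) : In R chy N (x ::ₘ y ::ₘ {z}) :=
  in_mk hx (in_leaf xy) (in_leaf xz) (by simp)

/-- the situation in which both subtrees are cherries -/
theorem case2_cc (hT : Tour R) {a b m x c₁ c₂ d₁ d₂ : V} {N : V → Prop}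
    (hnd : (a ::ₘ b ::ₘ m ::ₘ x ::ₘ c₁ ::ₘ c₂ ::ₘ d₁ ::ₘ {d₂}).Nodup)
    (ha : N a) (hb : N b) (mx : R m x) (ma : R m a) (bm : R b m)
    (ac₁ : R a c₁) (ac₂ : R a c₂) (cd : R d₁ d₂) (bd₁ : R b d₁)
    (cm : R c₂ m) (c₂d₂ : R c₂ d₂) (cb : R c₁ b) :
    In R (.node chy chy) N (a ::ₘ b ::ₘ m ::ₘ x ::ₘ c₁ ::ₘ c₂ ::ₘ d₁ ::ₘ {d₂}) := by
  simp only [nodup_cons, mem_cons, mem_singleton, not_or] at hnd
  rcases hT.tot c₁ d₁ (by tauto) with h | h
  · refine (in_mk ha (in_chy (x := c₁) (y := b) (z := d₁) ac₁ cb h) (in_chy (x := c₂) (y := m) (z := d₂) ac₂ cm c₂d₂) rfl).sub ?_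
    refine _root_.le_iff_exists_add.2 ⟨{x}, ?_⟩
    simp only [← singleton_add]; abel
  · refine (in_mk hb (in_chy (x := d₁) (y := d₂) (z := c₁) bd₁ cd h) (in_chy (x := m) (y := a) (z := x) bm ma mx) rfl).sub ?_
    refine _root_.le_iff_exists_add.2 ⟨{c₂}, ?_⟩
    simp only [← singleton_add]; abel

/-- the situation in which `A` is a cherry -/
theorem case2_c (hT : Tour R) {B : BT} (hB : PD R B) (hM : B ≠ lf → B ≠ chy → ML R B)
    {a b m x c₁ c₂ : V} {CB XB : Multiset V} {N : V → Prop}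
    (hnd : (a ::ₘ b ::ₘ m ::ₘ x ::ₘ c₁ ::ₘ c₂ ::ₘ XB).Nodup) (hXB : Bs R B CB XB)
    (ac₁ : R a c₁) (ac₂ : R a c₂) (hbB : ∀ c ∈ CB, R b c) (ha : N a) (hb : N b) (hm : N m)
    (hab : R a b) (mx : R m x) (ma : R m a) (bm : R b m) (cc : R c₁ c₂) (xc₂ : R x c₂)
    (mA : ¬ (R m c₁ ∧ R m c₂)) (aB : ∃ c ∈ CB, R c a) :
    In R (.node chy B) N (a ::ₘ b ::ₘ m ::ₘ x ::ₘ c₁ ::ₘ c₂ ::ₘ XB) := by
  have hnd' := hnd
  simp only [nodup_cons, mem_cons, not_or] at hnd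
  obtain ⟨⟨nab, nam, nax, nac₁, nac₂, naB⟩, ⟨nbm, nbx, nbc₁, nbc₂, nbB⟩, ⟨nmx, nmc₁, nmc₂, nmB⟩,
    ⟨nxc₁, nxc₂, nxB⟩, ⟨nc, nc₁B⟩, nc₂B, ndB⟩ := hnd
  rcases hT.tot m c₁ nmc₁ with mc₁ | mc₁
  swap
  · refine in_mk ha (Z₁ := c₁ ::ₘ c₂ ::ₘ m ::ₘ {x}) ((in_chy (x := c₁) (y := c₂) (z := m) ac₁ cc mc₁).sub ?_)
      ((hXB.rt hbB).in hab) ?_
    · refine _root_.le_iff_exists_add.2 ⟨{x}, ?_⟩
      simp only [← singleton_add]; abel
    · simp only [← singleton_add]; abel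
  have c₂m : R c₂ m := (hT.tot m c₂ nmc₂).resolve_left (fun h => mA ⟨mc₁, h⟩)
  -- T at b with the cherry at m
  by_cases h1 : R b c₂ ∨ ∃ c ∈ CB, R c c₂
  · refine in_mk hb (in_chy (x := m) (y := c₁) (z := x) bm mc₁ mx) (hB CB XB a c₂ (R b) ?_ hXB hbB 
      (Or.inr (Or.inl aB)) ?_) ?_
    · simp [*]
    · exact h1.imp id Or.inl
    · simp only [← singleton_add]; abel
  push Not at h1
  obtain ⟨h1, h2⟩ := h1
  have c₂b : R c₂ b := (hT.tot b c₂ nbc₂).resolve_left h1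
  have c₂B : ∀ c ∈ CB, R c₂ c := hXB.dom hT nc₂B h2
  rcases hT.tot b c₁ nbc₁ with bc₁ | c₁b
  · refine (in_mk ha (in_chy (x := b) (y := m) (z := c₁) hab bm bc₁) ((hXB.rt c₂B).in ac₂) rfl).sub ?_
    refine _root_.le_iff_exists_add.2 ⟨{x}, ?_⟩
    simp only [← singleton_add]; abel
  by_cases e1 : B = lf
  · subst e1
    obtain ⟨rfl, rfl⟩ := hXB.leaf
    obtain ⟨c, hc, -⟩ := aB
    simp at hc
  by_cases e2 : B = chy
  · subst e2
    obtain ⟨d₁, D₁, d₂, D₂, rfl, rfl, h3, h4⟩ := hXB.two (by simp) (by simp)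
    obtain ⟨C, h5, -⟩ := h3.bs
    obtain ⟨rfl, rfl⟩ := h5.leaf
    obtain ⟨C, h5, -⟩ := h4.bs
    obtain ⟨rfl, rfl⟩ := h5.leaf
    simp only [insert_eq_cons, mem_cons, mem_singleton, forall_eq_or_imp, forall_eq] at hbB c₂B
    have e : ∀ d₁ d₂ : V, d₁ ::ₘ d₂ ::ₘ ((0 : Multiset V) + 0) = d₁ ::ₘ {d₂} := by
      intro d₁ d₂
      simp
    rw [e] at hnd' ⊢
    have nd : d₁ ≠ d₂ := by
      simp at ndB
      exact ndB
    rcases hT.tot d₁ d₂ nd with h | h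
    · exact case2_cc hT hnd' ha hb mx ma bm ac₁ ac₂ h hbB.1 c₂m c₂B.2 c₁b
    · have e' : d₁ ::ₘ ({d₂} : Multiset V) = d₂ ::ₘ {d₁} := Multiset.pair_comm _ _
      rw [e'] at hnd' ⊢
      exact case2_cc hT hnd' ha hb mx ma bm ac₁ ac₂ h hbB.2 c₂m c₂B.1 c₁b
  rcases hM e1 e2 CB XB x c₂ (by simp [*]) hXB xc₂ with h | h
  · refine (in_mk hm (in_chy (x := a) (y := c₁) (z := c₂) ma ac₁ ac₂) (h.in mx) rfl).sub ?_
    refine _root_.le_iff_exists_add.2 ⟨{b}, ?_⟩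
    simp only [← singleton_add]; abel
  · refine in_mk hb (in_chy (x := m) (y := a) (z := c₁) bm ma mc₁) (h.mono hbB le_rfl) ?_
    simp only [← singleton_add]; abel

/-- the second case: one vertex of the pool is only dominated by the other -/
theorem case2 (hT : Tour R) {A B : BT} (hA : PD R A) (hB : PD R B) (hMA : A ≠ lf → A ≠ chy → ML R A)
    (hMB : B ≠ lf → B ≠ chy → ML R B)
    {a b m x : V} {CA CB XA XB : Multiset V} {N : V → Prop}
    (hnd : (a ::ₘ b ::ₘ m ::ₘ x ::ₘ (XA + XB)).Nodup) (hXA : Bs R A CA XA) (hXB : Bs R B CB XB)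
    (haA : ∀ c ∈ CA, R a c) (hbB : ∀ c ∈ CB, R b c) (hab : R a b) (ha : N a) (hb : N b) (hm : N m)
    (mx : R m x) (xb : R x b) (hm' : R a m ∨ R b m) :
    In R (.node A B) N (a ::ₘ b ::ₘ m ::ₘ x ::ₘ (XA + XB)) := by
  have hnd' := hnd
  simp only [nodup_cons, mem_cons, mem_add, not_or, nodup_add] at hnd
  obtain ⟨⟨nab, nam, nax, naA, naB⟩, ⟨nbm, nbx, nbA, nbB⟩, ⟨nmx, nmA, nmB⟩, ⟨nxA, nxB⟩, ndA, ndB, ndd⟩ := hnd
  by_cases am : R a m
  · refine in_mk ha (hA CA XA m x (R a) (by simp [*]) hXA haA (Or.inl am) (Or.inr (Or.inr ⟨am, mx⟩)))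
      ((hXB.rt hbB).in hab) ?_
    simp only [← singleton_add]; abel
  have ma : R m a := (hT.tot a m nam).resolve_left am
  have bm : R b m := hm'.resolve_left am
  by_cases xB : ∀ c ∈ CB, R x c
  · refine (in_mk hm ((hXA.rt haA).in ma) ((hXB.rt xB).in mx) rfl).sub ?_
    refine _root_.le_iff_exists_add.2 ⟨{b}, ?_⟩
    simp only [← singleton_add]; abel
  have xB' : ∃ c ∈ CB, R c x := by
    by_contra hcon
    push Not at hcon
    exact xB (hXB.dom hT nxB hcon)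
  by_cases mA : ∀ c ∈ CA, R m c
  · by_cases aB : ∃ c ∈ CB, R c a
    · refine in_mk hb ((hXA.rt mA).in bm) (hB CB XB a x (R b) (by simp [*]) hXB hbB (Or.inr (Or.inl aB))
        (Or.inr (Or.inl xB'))) ?_
      simp only [← singleton_add]; abel
    · push Not at aB
      have aB' := hXB.dom hT naB aB
      refine in_mk hm (hA CA XA b x (R m) (by simp [*]) hXA mA (Or.inr (Or.inr ⟨mx, xb⟩)) (Or.inl mx))
        ((hXB.rt aB').in ma) ?_
      simp only [← singleton_add]; abel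
  have mA' : ∃ c ∈ CA, R c m := by
    by_contra hcon
    push Not at hcon
    exact mA (hXA.dom hT nmA hcon)
  by_cases xA : ∃ c ∈ CA, R c x
  · refine in_mk ha (hA CA XA m x (R a) (by simp [*]) hXA haA (Or.inr (Or.inl mA')) (Or.inr (Or.inl xA)))
      ((hXB.rt hbB).in hab) ?_
    simp only [← singleton_add]; abel
  push Not at xA
  have xA' := hXA.dom hT nxA xA
  by_cases aB : ∃ c ∈ CB, R c a
  swap
  · push Not at aB
    have aB' := hXB.dom hT naB aB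
    refine (in_mk hm ((hXA.rt xA').in mx) ((hXB.rt aB').in ma) rfl).sub ?_
    refine _root_.le_iff_exists_add.2 ⟨{b}, ?_⟩
    simp only [← singleton_add]; abel
  by_cases e1 : A = lf
  · subst e1
    obtain ⟨rfl, rfl⟩ := hXA.leaf
    obtain ⟨c, hc, -⟩ := mA'
    simp at hc
  by_cases e2 : A = chy
  · subst e2
    obtain ⟨c₁, D₁, c₂, D₂, rfl, rfl, h3, h4⟩ := hXA.two (by simp) (by simp)
    obtain ⟨C, h5, -⟩ := h3.bs
    obtain ⟨rfl, rfl⟩ := h5.leaf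
    obtain ⟨C, h5, -⟩ := h4.bs
    obtain ⟨rfl, rfl⟩ := h5.leaf
    simp only [insert_eq_cons, mem_cons, mem_singleton, forall_eq_or_imp, forall_eq] at haA mA xA'
    have e : ∀ d₁ d₂ : V, d₁ ::ₘ d₂ ::ₘ ((0 : Multiset V) + 0) + XB = d₁ ::ₘ d₂ ::ₘ XB := by
      intro d₁ d₂
      simp
    rw [e] at hnd' ⊢
    have nd : c₁ ≠ c₂ := by
      simp at ndA
      exact ndA
    rcases hT.tot c₁ c₂ nd with h | h
    · exact case2_c hT hB hMB hnd' hXB haA.1 haA.2 hbB ha hb hm hab mx ma bm h xA'.2 mA aB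
    · rw [cons_swap c₁ c₂] at hnd' ⊢
      exact case2_c hT hB hMB hnd' hXB haA.2 haA.1 hbB ha hb hm hab mx ma bm h xA'.1
        (fun h => mA ⟨h.2, h.1⟩) aB
  rcases hMA e1 e2 CA XA m x (by simp [*]) hXA mx with h | h
  · refine in_mk hb (h.in bm) (hB CB XB a x (R b) (by simp [*]) hXB hbB (Or.inr (Or.inl aB))
        (Or.inr (Or.inl xB'))) ?_
    simp only [← singleton_add]; abel
  · refine in_mk ha (h.mono haA le_rfl) ((hXB.rt hbB).in hab) ?_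
    simp only [← singleton_add]; abel

end AE36
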