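import Pool.Agent.AE32.Defs

/-!
# Binary out-arborescences in tournaments of order one more: definitions

All vertex sets are multisets; distinctness is only assumed for the whole set of vertices.
-/

namespace AE36

open Multiset AE32

/-- the one-vertex tree -/
abbrev lf : BT := .node .nil .nil

/-- the cherry -/
abbrev chy : BT := .node lf lf

variable {V : Type*} {R : V → V → Prop}

/-- `T` is embedded onto the multiset `S` with its root at a vertex satisfying `N`. -/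
def Em (R : V → V → Prop) : BT → (V → Prop) → Multiset V → Prop
  | .nil, _, S => S = 0
  | .node l r, N, S => ∃ x A B, N x ∧ S = x ::ₘ (A + B) ∧ Em R l (R x) A ∧ Em R r (R x) B

/-- `x` is the root of a copy of `T` whose other vertices are `Y`. -/
def Rt (R : V → V → Prop) : BT → V → Multiset V → Prop
  | .nil, _, _ => False
  | .node l r, x, Y => ∃ A B, Y = A + B ∧ Em R l (R x) A ∧ Em R r (R x) B

/-- `T` is embedded inside `Z` with its root at a vertex satisfying `N`. -/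
def In (R : V → V → Prop) (T : BT) (N : V → Prop) (Z : Multiset V) : Prop := ∃ S ≤ Z, Em R T N S

/-- `T` is embedded onto `X`, and `C` is the multiset consisting of its root (and empty if `T` is empty). -/
def Tk (R : V → V → Prop) (T : BT) (C X : Multiset V) : Prop :=
  (T = .nil ∧ C = 0 ∧ X = 0) ∨ ∃ x Y, C = {x} ∧ X = x ::ₘ Y ∧ Rt R T x Y

/-- the subtrees of `T` at the children of the root are embedded onto `X` with the roots `C`. -/
def Bs (R : V → V → Prop) : BT → Multiset V → Multiset V → Prop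
  | .nil, _, _ => False
  | .node l r, C, X => ∃ C₁ C₂ A B, C = C₁ + C₂ ∧ X = A + B ∧ Tk R l C₁ A ∧ Tk R r C₂ B

theorem Em.mono {T : BT} {N N' : V → Prop} {S : Multiset V} (h : Em R T N S) (hN : ∀ x, N x → N' x) :
    Em R T N' S := by
  cases T with
  | nil => exact h
  | node l r =>
    obtain ⟨x, A, B, h1, h2⟩ := h
    exact ⟨x, A, B, hN x h1, h2⟩

theorem Em.swap {l r : BT} {N : V → Prop} {S : Multiset V} (h : Em R (.node l r) N S) : Em R (.node r l) N S := by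
  obtain ⟨x, A, B, h1, h2, h3, h4⟩ := h
  exact ⟨x, B, A, h1, by rw [h2, add_comm], h4, h3⟩

theorem Rt.swap {l r : BT} {x : V} {S : Multiset V} (h : Rt R (.node l r) x S) : Rt R (.node r l) x S := by
  obtain ⟨A, B, h2, h3, h4⟩ := h
  exact ⟨B, A, by rw [h2, add_comm], h4, h3⟩

theorem Bs.swap {l r : BT} {C S : Multiset V} (h : Bs R (.node l r) C S) : Bs R (.node r l) C S := by
  obtain ⟨C₁, C₂, A, B, h1, h2, h3, h4⟩ := h
  exact ⟨C₂, C₁, B, A, by rw [h1, add_comm], by rw [h2, add_comm], h4, h3⟩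

theorem In.swap {l r : BT} {N : V → Prop} {Z : Multiset V} (h : In R (.node l r) N Z) : In R (.node r l) N Z := by
  obtain ⟨S, h1, h2⟩ := h
  exact ⟨S, h1, h2.swap⟩

theorem In.mono {T : BT} {N N' : V → Prop} {Z Z' : Multiset V} (h : In R T N Z) (hN : ∀ x, N x → N' x)
    (hZ : Z ≤ Z') : In R T N' Z' := by
  obtain ⟨S, h1, h2⟩ := h
  exact ⟨S, h1.trans hZ, h2.mono hN⟩

theorem In.sub {T : BT} {N : V → Prop} {Z Z' : Multiset V} (h : In R T N Z) (hZ : Z ≤ Z') : In R T N Z' :=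
  h.mono (fun _ h => h) hZ

theorem In.eq {T : BT} {N : V → Prop} {Z Z' : Multiset V} (h : In R T N Z) (hZ : Z = Z') : In R T N Z' :=
  hZ ▸ h

theorem Rt.em {T : BT} {x : V} {N : V → Prop} {Y : Multiset V} (h : Rt R T x Y) (hx : N x) :
    Em R T N (x ::ₘ Y) := by
  cases T with
  | nil => exact h.elim
  | node l r =>
    obtain ⟨A, B, rfl, h1, h2⟩ := h
    exact ⟨x, A, B, hx, rfl, h1, h2⟩

theorem Rt.in {T : BT} {x : V} {N : V → Prop} {Y : Multiset V} (h : Rt R T x Y) (hx : N x) :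
    In R T N (x ::ₘ Y) := ⟨_, le_rfl, h.em hx⟩

theorem Em.rt {T : BT} {N : V → Prop} {S : Multiset V} (h : Em R T N S) (hT : T ≠ .nil) :
    ∃ x Y, N x ∧ S = x ::ₘ Y ∧ Rt R T x Y := by
  cases T with
  | nil => exact absurd rfl hT
  | node l r =>
    obtain ⟨x, A, B, h1, h2, h3, h4⟩ := h
    exact ⟨x, A + B, h1, h2, A, B, rfl, h3, h4⟩

theorem in_mk {l r : BT} {N : V → Prop} {x : V} {Z Z₁ Z₂ : Multiset V} (hx : N x) (h1 : In R l (R x) Z₁)
    (h2 : In R r (R x) Z₂) (hZ : x ::ₘ (Z₁ + Z₂) = Z) : In R (.node l r) N Z := by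
  obtain ⟨A, hA, h1⟩ := h1
  obtain ⟨B, hB, h2⟩ := h2
  refine ⟨x ::ₘ (A + B), ?_, x, A, B, hx, rfl, h1, h2⟩
  rw [← hZ]
  exact cons_le_cons x (add_le_add hA hB)

theorem Em.tk {T : BT} {N : V → Prop} {S : Multiset V} (h : Em R T N S) :
    ∃ C, Tk R T C S ∧ ∀ c ∈ C, N c := by
  cases T with
  | nil => exact ⟨0, Or.inl ⟨rfl, rfl, h⟩, by simp⟩
  | node l r =>
    obtain ⟨x, Y, h1, h2, h3⟩ := h.rt (by simp)
    exact ⟨{x}, Or.inr ⟨x, Y, rfl, h2, h3⟩, by simpa using h1⟩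

theorem Tk.em {T : BT} {N : V → Prop} {C S : Multiset V} (h : Tk R T C S) (hC : ∀ c ∈ C, N c) :
    Em R T N S := by
  rcases h with ⟨rfl, rfl, rfl⟩ | ⟨x, Y, rfl, rfl, h⟩
  · rfl
  · exact h.em (hC x (by simp))

theorem Rt.bs {T : BT} {x : V} {Y : Multiset V} (h : Rt R T x Y) : ∃ C, Bs R T C Y ∧ ∀ c ∈ C, R x c := by
  cases T with
  | nil => exact h.elim
  | node l r =>
    obtain ⟨A, B, rfl, h1, h2⟩ := h
    obtain ⟨C₁, h3, h4⟩ := h1.tk
    obtain ⟨C₂, h5, h6⟩ := h2.tk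
    refine ⟨C₁ + C₂, ⟨C₁, C₂, A, B, rfl, rfl, h3, h5⟩, fun c hc => ?_⟩
    rw [mem_add] at hc
    exact hc.elim (h4 c) (h6 c)

theorem Bs.rt {T : BT} {x : V} {C Y : Multiset V} (h : Bs R T C Y) (hC : ∀ c ∈ C, R x c) : Rt R T x Y := by
  cases T with
  | nil => exact h.elim
  | node l r =>
    obtain ⟨C₁, C₂, A, B, rfl, rfl, h1, h2⟩ := h
    exact ⟨A, B, rfl, h1.em (fun c hc => hC c (by simp [hc])), h2.em (fun c hc => hC c (by simp [hc]))⟩

theorem bs_leaf : Bs R lf 0 0 := ⟨0, 0, 0, 0, by simp, by simp, Or.inl ⟨rfl, rfl, rfl⟩, Or.inl ⟨rfl, rfl, rfl⟩⟩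

theorem Bs.leaf {C X : Multiset V} (h : Bs R lf C X) : C = 0 ∧ X = 0 := by
  obtain ⟨C₁, C₂, A, B, rfl, rfl, h1, h2⟩ := h
  rcases h1 with ⟨-, rfl, rfl⟩ | ⟨x, Y, -, -, h⟩
  · rcases h2 with ⟨-, rfl, rfl⟩ | ⟨x, Y, -, -, h⟩
    · simp
    · exact h.elim
  · exact h.elim

theorem rt_leaf (x : V) : Rt R lf x 0 := ⟨0, 0, by simp, rfl, rfl⟩

/-- two children -/
theorem Bs.two {l r : BT} (hl : l ≠ .nil) (hr : r ≠ .nil) {C X : Multiset V} (h : Bs R (.node l r) C X) :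
    ∃ a A b B, C = {a, b} ∧ X = a ::ₘ b ::ₘ (A + B) ∧ Rt R l a A ∧ Rt R r b B := by
  obtain ⟨C₁, C₂, A, B, rfl, rfl, h1, h2⟩ := h
  rcases h1 with ⟨h, -⟩ | ⟨a, A', rfl, rfl, h1⟩
  · exact absurd h hl
  rcases h2 with ⟨h, -⟩ | ⟨b, B', rfl, rfl, h2⟩
  · exact absurd h hr
  exact ⟨a, A', b, B', rfl, by rw [cons_add, add_cons], h1, h2⟩

/-- one child -/
theorem Bs.one {l : BT} (hl : l ≠ .nil) {C X : Multiset V} (h : Bs R (.node l .nil) C X) :
    ∃ a A, C = {a} ∧ X = a ::ₘ A ∧ Rt R l a A := by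
  obtain ⟨C₁, C₂, A, B, rfl, rfl, h1, h2⟩ := h
  rcases h1 with ⟨h, -⟩ | ⟨a, A', rfl, rfl, h1⟩
  · exact absurd h hl
  rcases h2 with ⟨-, rfl, rfl⟩ | ⟨x, Y, -, -, h⟩
  · exact ⟨a, A', by simp, by simp, h1⟩
  · exact h.elim

theorem Tk.mem {T : BT} {C X : Multiset V} (h : Tk R T C X) {c : V} (hc : c ∈ C) : c ∈ X := by
  rcases h with ⟨rfl, rfl, rfl⟩ | ⟨x, Y, rfl, rfl, h⟩
  · exact hc
  · rw [mem_singleton] at hc
    simp [hc]

theorem Bs.mem {T : BT} {C X : Multiset V} (h : Bs R T C X) {c : V} (hc : c ∈ C) : c ∈ X := by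
  cases T with
  | nil => exact h.elim
  | node l r =>
    obtain ⟨C₁, C₂, A, B, rfl, rfl, h1, h2⟩ := h
    rw [mem_add] at hc ⊢
    exact hc.imp h1.mem h2.mem

theorem Bs.dom (hT : Tour R) {T : BT} {C X : Multiset V} (h : Bs R T C X) {v : V} (hv : v ∉ X)
    (h1 : ∀ c ∈ C, ¬ R c v) : ∀ c ∈ C, R v c := by
  intro c hc
  refine (hT.tot v c ?_).resolve_right (h1 c hc)
  rintro rfl
  exact hv (h.mem hc)

theorem in_leaf {N : V → Prop} {x : V} (hx : N x) : In R lf N {x} := (rt_leaf x).in hx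

/-- the main inductive property -/
def PD (R : V → V → Prop) (T : BT) : Prop := ∀ (C X : Multiset V) (p q : V) (N : V → Prop),
  (p ::ₘ q ::ₘ X).Nodup → Bs R T C X → (∀ c ∈ C, N c) →
  (N p ∨ (∃ c ∈ C, R c p) ∨ (N q ∧ R q p)) → (N q ∨ (∃ c ∈ C, R c q) ∨ (N p ∧ R p q)) →
  In R T N (p ::ₘ q ::ₘ X)

/-- Lemma M -/
def ML (R : V → V → Prop) (T : BT) : Prop := ∀ (C X : Multiset V) (m x : V),
  (m ::ₘ x ::ₘ X).Nodup → Bs R T C X → R m x → Rt R T m X ∨ In R T (fun c => c ∈ C) (m ::ₘ x ::ₘ X)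

/-- Lemma Z -/
def ZL (R : V → V → Prop) (T : BT) : Prop := ∀ (C X : Multiset V) (b w q : V),
  (b ::ₘ w ::ₘ q ::ₘ X).Nodup → Bs R T C X → (∀ c ∈ C, R b c) → R w q → R b w →
  ∃ r S u v, (r = b ∨ r ∈ C) ∧ Rt R T r S ∧ r ::ₘ u ::ₘ v ::ₘ S = b ::ₘ w ::ₘ q ::ₘ X ∧
    (u = b ∨ u = q ∨ u ∈ C) ∧ ((v = b ∨ v = q ∨ v ∈ C) ∨ R u v)

end AE36
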