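import Pool.Agent.AE36.Step
import Pool.Agent.AE95.Cherry

/-!
# Binary out-arborescences in tournaments of order one more: oriented trees
-/

namespace AE36

open Multiset AE32

theorem Em.emb {V : Type*} [DecidableEq V] {R : V → V → Prop} {T : BT} {N : V → Prop} {S : Multiset V}
    (h : Em R T N S) (hS : S.Nodup) : Emb R T N S.toFinset := by
  induction T generalizing N S with
  | nil =>
    rw [show S = 0 from h]
    rfl
  | node l r ihl ihr =>
    obtain ⟨x, A, B, h1, rfl, h3, h4⟩ := h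
    simp only [nodup_cons, mem_add, not_or, nodup_add] at hS
    obtain ⟨⟨h5, h6⟩, h7, h8, h9⟩ := hS
    refine ⟨x, A.toFinset, B.toFinset, h1, by simpa using h5, by simpa using h6, ?_, by simp, ihl h3 h7, ihr h4 h8⟩
    rw [Finset.disjoint_left]
    intro v hv hv'
    rw [mem_toFinset] at hv hv'
    exact disjoint_left.1 h9 hv hv'

theorem final {k n : ℕ} {R : Fin n → Fin n → Prop} (hPD : ∀ T : BT, T ≠ .nil → PD R T)
    {E : Fin (k + 1) → Fin (k + 1) → Prop}
    (hanti : ∀ a b, E a b → ¬ E b a) (hG : (SimpleGraph.fromRel E).IsTree)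
    (hin : ∀ a b c, E a c → E b c → a = b) (hout : ∀ v, {w | E v w}.ncard ≤ 2) (hn : k + 2 ≤ n) :
    ∃ f : Fin (k + 1) → Fin n, Function.Injective f ∧ ∀ a b, E a b → R (f a) (f b) := by
  classical
  obtain ⟨h, hE⟩ := GS78.exists_rank hanti hG.2
  obtain ⟨ρ, hρ⟩ := exists_root hin hE hG.1
  obtain ⟨T, hT1, hT2, -, hT4⟩ := AE95.exists_bt (R := R) (P := Finset.univ) hE hin hout (fun _ _ => Finset.mem_univ _) _ ρ rfl
  have h1 : T.size = k + 1 := by rw [hT2, hρ, Finset.card_univ, Fintype.card_fin]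
  obtain ⟨U, hU, hc⟩ := Finset.exists_subset_card_eq (s := (Finset.univ : Finset (Fin n))) (n := k + 2) (by
    rw [Finset.card_univ, Fintype.card_fin]
    exact hn)
  obtain ⟨S, hS, hS'⟩ := embed_all hPD T hT1 U.val U.nodup (by rw [Finset.card_val, hc, h1])
  obtain ⟨x, -, hx⟩ := (hS'.emb (nodup_of_le hS U.nodup)).root hT1
  obtain ⟨f, -, -, hf3, hf4⟩ := hT4 x _ hx
  rw [hρ] at hf3 hf4
  exact ⟨f, fun a b hab => hf3 a (Finset.mem_univ _) b (Finset.mem_univ _) hab,
    fun a b hab => hf4 a (Finset.mem_univ _) b (Finset.mem_univ _) hab⟩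

end AE36
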