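import Pool.Agent.AE36.Case1
import Pool.Agent.AE36.Case2

/-!
# Binary out-arborescences in tournaments of order one more: the main induction step
-/

namespace AE36

open Multiset AE32

variable {V : Type*} {R : V → V → Prop}

theorem pd_leaf : PD R lf := by
  intro C X p q N hnd hX hN hp hq
  obtain ⟨rfl, rfl⟩ := hX.leaf
  simp only [notMem_zero, false_and, exists_false, false_or] at hp hq
  by_cases h : N p
  · refine (in_leaf h).sub ?_
    exact cons_le_cons p (zero_le _)
  · have h1 := hp.resolve_left h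
    refine (in_leaf h1.1).sub ?_
    exact le_cons_self _ _

theorem pd_unary (hT : Tour R) {A : BT} (hA0 : A ≠ .nil) (hA : PD R A) : PD R (.node A .nil) := by
  intro C X p q N hnd hX hN hp hq
  obtain ⟨a, XA, rfl, rfl, h1⟩ := hX.one hA0
  obtain ⟨CA, h2, h3⟩ := h1.bs
  simp only [mem_singleton, exists_eq_left, forall_eq] at hN hp hq
  simp only [nodup_cons, mem_cons, not_or] at hnd
  obtain ⟨⟨npq, npa, npA⟩, ⟨nqa, nqA⟩, naA, ndA⟩ := hnd
  by_cases h4 : N p ∧ R p a
  · refine (in_mk (r := .nil) (Z₂ := 0) h4.1 (h1.in h4.2) ⟨0, le_rfl, rfl⟩ rfl).sub ?_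
    refine _root_.le_iff_exists_add.2 ⟨{q}, ?_⟩
    simp only [← singleton_add]; abel
  by_cases h5 : N q ∧ R q a
  · refine (in_mk (r := .nil) (Z₂ := 0) h5.1 (h1.in h5.2) ⟨0, le_rfl, rfl⟩ rfl).sub ?_
    refine _root_.le_iff_exists_add.2 ⟨{p}, ?_⟩
    simp only [← singleton_add]; abel
  have h6 : N p → R a p := fun h => (hT.tot p a npa).resolve_left (fun h' => h4 ⟨h, h'⟩)
  have h7 : N q → R a q := fun h => (hT.tot q a nqa).resolve_left (fun h' => h5 ⟨h, h'⟩)
  refine in_mk (Z₂ := 0) hN (hA CA XA p q (R a) (by simp [*]) h2 h3 ?_ ?_) ⟨0, le_rfl, rfl⟩ ?_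
  · rcases hp with h | h | h
    · exact Or.inl (h6 h)
    · exact Or.inl h
    · exact Or.inr (Or.inr ⟨h7 h.1, h.2⟩)
  · rcases hq with h | h | h
    · exact Or.inl (h7 h)
    · exact Or.inl h
    · exact Or.inr (Or.inr ⟨h6 h.1, h.2⟩)
  · simp only [← singleton_add]; abel

theorem pd_two_aux (hT : Tour R) {A B : BT} (hA : PD R A) (hB : PD R B) (hMA : A ≠ lf → A ≠ chy → ML R A)
    (hMB : B ≠ lf → B ≠ chy → ML R B) (hZB : B ≠ lf → ZL R B) {a b p q : V} {XA XB : Multiset V} {N : V → Prop}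
    (hnd : (a ::ₘ b ::ₘ p ::ₘ q ::ₘ (XA + XB)).Nodup) (h1 : Rt R A a XA) (h2 : Rt R B b XB) (hab : R a b)
    (ha : N a) (hb : N b) (hp : N p ∨ (R a p ∨ R b p) ∨ (N q ∧ R q p)) (hq : N q ∨ (R a q ∨ R b q) ∨ (N p ∧ R p q)) :
    In R (.node A B) N (a ::ₘ b ::ₘ p ::ₘ q ::ₘ (XA + XB)) := by
  obtain ⟨CA, h3, h4⟩ := h1.bs
  obtain ⟨CB, h5, h6⟩ := h2.bs
  have hnd' := hnd
  simp only [nodup_cons, mem_cons, mem_add, not_or, nodup_add] at hnd
  obtain ⟨⟨nab, nap, naq, naA, naB⟩, ⟨nbp, nbq, nbA, nbB⟩, ⟨npq, npA, npB⟩, ⟨nqA, nqB⟩, ndA, ndB, ndd⟩ := hnd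
  by_cases h7 : N p ∧ R p a ∧ R p b
  · refine (in_mk h7.1 (h1.in h7.2.1) (h2.in h7.2.2) rfl).sub ?_
    refine _root_.le_iff_exists_add.2 ⟨{q}, ?_⟩
    simp only [← singleton_add]; abel
  by_cases h8 : N q ∧ R q a ∧ R q b
  · refine (in_mk h8.1 (h1.in h8.2.1) (h2.in h8.2.2) rfl).sub ?_
    refine _root_.le_iff_exists_add.2 ⟨{p}, ?_⟩
    simp only [← singleton_add]; abel
  have h7' : N p → R a p ∨ R b p := by
    intro h
    by_contra hcon
    push Not at hcon
    exact h7 ⟨h, (hT.tot a p nap).resolve_left hcon.1, (hT.tot b p nbp).resolve_left hcon.2⟩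
  have h8' : N q → R a q ∨ R b q := by
    intro h
    by_contra hcon
    push Not at hcon
    exact h8 ⟨h, (hT.tot a q naq).resolve_left hcon.1, (hT.tot b q nbq).resolve_left hcon.2⟩
  by_cases h9 : R a p ∨ R b p
  · by_cases h10 : R a q ∨ R b q
    · exact case1 hT hA hB hZB hnd' h3 h5 h4 h6 hab ha hb h9 h10
    · have h11 : N p ∧ R p q := by
        rcases hq with h | h | h
        · exact absurd (h8' h) h10
        · exact absurd h h10
        · exact h
      push Not at h10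
      exact case2 hT hA hB hMA hMB hnd' h3 h5 h4 h6 hab ha hb h11.1 h11.2
        ((hT.tot b q nbq).resolve_left h10.2) h9
  · have h11 : N q ∧ R q p := by
      rcases hp with h | h | h
      · exact absurd (h7' h) h9
      · exact absurd h h9
      · exact h
    push Not at h9
    rw [cons_swap p q] at hnd' ⊢
    exact case2 hT hA hB hMA hMB hnd' h3 h5 h4 h6 hab ha hb h11.1 h11.2
      ((hT.tot b p nbp).resolve_left h9.2) (h8' h11.1)

theorem pd_two (hT : Tour R) {A B : BT} (hA0 : A ≠ .nil) (hB0 : B ≠ .nil) (hA : PD R A) (hB : PD R B)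
    (hMA : A ≠ lf → A ≠ chy → ML R A) (hMB : B ≠ lf → B ≠ chy → ML R B)
    (hZA : A ≠ lf → ZL R A) (hZB : B ≠ lf → ZL R B) : PD R (.node A B) := by
  intro C X p q N hnd hX hN hp hq
  obtain ⟨a, XA, b, XB, rfl, rfl, h1, h2⟩ := hX.two hA0 hB0
  simp only [insert_eq_cons, mem_cons, mem_singleton, exists_eq_or_imp, exists_eq_left, forall_eq_or_imp,
    forall_eq] at hN hp hq
  have e : p ::ₘ q ::ₘ a ::ₘ b ::ₘ (XA + XB) = a ::ₘ b ::ₘ p ::ₘ q ::ₘ (XA + XB) := by
    simp only [← singleton_add]; abel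
  rw [e] at hnd ⊢
  have nab : a ≠ b := by
    simp only [nodup_cons, mem_cons, mem_add, not_or] at hnd
    exact hnd.1.1
  rcases hT.tot a b nab with h | h
  · exact pd_two_aux hT hA hB hMA hMB hZB hnd h1 h2 h hN.1 hN.2 hp hq
  · rw [cons_swap a b, add_comm XA XB] at hnd ⊢
    exact (pd_two_aux hT hB hA hMB hMA hZA hnd h2 h1 h hN.2 hN.1 (by tauto) (by tauto)).swap

/-- all properties of a tree -/
def All (R : V → V → Prop) (T : BT) : Prop := PD R T ∧ (T ≠ lf → T ≠ chy → ML R T) ∧ (T ≠ lf → ZL R T)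

theorem all_of (hT : Tour R)
    (hM : ∀ T : BT, T ≠ .nil → T ≠ lf → T ≠ chy → (∀ T' : BT, T' ≠ .nil → T'.size < T.size → All R T') → ML R T)
    (hZ : ∀ T : BT, T ≠ .nil → T ≠ lf → (∀ T' : BT, T' ≠ .nil → T'.size < T.size → All R T') → ZL R T)
    (n : ℕ) : ∀ T : BT, T.size = n → T ≠ .nil → All R T := by
  induction n using Nat.strong_induction_on with
  | _ n ih =>
    intro T hn hne
    have ih' : ∀ T' : BT, T' ≠ .nil → T'.size < T.size → All R T' :=
      fun T' h1 h2 => ih T'.size (hn ▸ h2) T' rfl h1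
    refine ⟨?_, fun h1 h2 => hM T hne h1 h2 ih', fun h1 => hZ T hne h1 ih'⟩
    cases T with
    | nil => exact absurd rfl hne
    | node l r =>
      have hs : (BT.node l r).size = l.size + r.size + 1 := rfl
      by_cases e1 : l = .nil
      · subst e1
        by_cases e2 : r = .nil
        · subst e2
          exact pd_leaf
        · have h1 := pd_unary hT e2 (ih' r e2 (by omega)).1
          intro C X p q N hnd hX hN hp hq
          exact (h1 C X p q N hnd hX.swap hN hp hq).swap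
      · by_cases e2 : r = .nil
        · subst e2
          exact pd_unary hT e1 (ih' l e1 (by omega)).1
        · have h1 := ih' l e1 (by omega)
          have h2 := ih' r e2 (by omega)
          exact pd_two hT e1 e2 h1.1 h2.1 h1.2.1 h2.2.1 h1.2.2 h2.2.2

theorem Em.card {T : BT} {N : V → Prop} {S : Multiset V} (h : Em R T N S) : S.card = T.size := by
  induction T generalizing N S with
  | nil => rw [show S = 0 from h]; rfl
  | node l r ihl ihr =>
    obtain ⟨x, A, B, h1, rfl, h3, h4⟩ := h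
    rw [card_cons, card_add, ihl h3, ihr h4]
    rfl

theorem split_card (U : Multiset V) (n : ℕ) (h : n ≤ U.card) : ∃ A B : Multiset V, U = A + B ∧ A.card = n := by
  obtain ⟨A, hA, hc⟩ : ∃ A ≤ U, A.card = n := by
    have h1 : 0 < (powersetCard n U).card := by
      rw [card_powersetCard]
      exact Nat.choose_pos h
    obtain ⟨A, hA⟩ := card_pos_iff_exists_mem.1 h1
    rw [mem_powersetCard] at hA
    exact ⟨A, hA.1, hA.2⟩
  obtain ⟨B, rfl⟩ := _root_.le_iff_exists_add.1 hA
  exact ⟨A, B, rfl, hc⟩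

theorem In.left {T : BT} {N : V → Prop} {Z : Multiset V} (h : In R T N Z) (hT : T ≠ .nil)
    (hc : Z.card = T.size + 1) : ∃ p x Y, Z = p ::ₘ x ::ₘ Y ∧ N x ∧ Rt R T x Y := by
  obtain ⟨S, hS, hE⟩ := h
  obtain ⟨D, rfl⟩ := _root_.le_iff_exists_add.1 hS
  have h1 := hE.card
  rw [card_add] at hc
  obtain ⟨p, rfl⟩ := card_eq_one.1 (show D.card = 1 by omega)
  obtain ⟨x, Y, h2, rfl, h3⟩ := hE.rt hT
  refine ⟨p, x, Y, ?_, h2, h3⟩
  simp only [← singleton_add]; abel

/-- every tournament on one more vertex contains every binary tree -/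
theorem embed_all (hPD : ∀ T : BT, T ≠ .nil → PD R T) (T : BT) : T ≠ .nil → ∀ U : Multiset V, U.Nodup →
    U.card = T.size + 1 → In R T (fun _ => True) U := by
  induction T with
  | nil => exact fun h => absurd rfl h
  | node l r ihl ihr =>
    intro hne U hU hc
    have hs : (BT.node l r).size = l.size + r.size + 1 := rfl
    have hone : ∀ M : BT, M ≠ .nil → (∀ U : Multiset V, U.Nodup → U.card = M.size + 1 → In R M (fun _ => True) U) →
        U.card = M.size + 2 → In R (.node M .nil) (fun _ => True) U := by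
      intro M h1 h2 h3
      obtain ⟨A, B, rfl, hA⟩ := split_card U (M.size + 1) (by omega)
      rw [card_add] at h3
      obtain ⟨q, rfl⟩ := card_eq_one.1 (show B.card = 1 by omega)
      obtain ⟨p, x, Y, rfl, -, h4⟩ := (h2 A (nodup_of_le (le_add_right _ _) hU) hA).left h1 hA
      have e : p ::ₘ x ::ₘ Y + {q} = p ::ₘ q ::ₘ x ::ₘ Y := by
        simp only [← singleton_add]; abel
      rw [e] at hU ⊢
      refine hPD (.node M .nil) (by simp) {x} (x ::ₘ Y) p q (fun _ => True) hU ?_ (by simp) (Or.inl trivial) (Or.inl trivial)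
      exact ⟨{x}, 0, x ::ₘ Y, 0, by simp, by simp, Or.inr ⟨x, Y, rfl, rfl, h4⟩, Or.inl ⟨rfl, rfl, rfl⟩⟩
    have hz : BT.nil.size = 0 := rfl
    by_cases e1 : l = .nil
    · subst e1
      by_cases e2 : r = .nil
      · subst e2
        obtain ⟨x, hx⟩ := card_pos_iff_exists_mem.1 (show 0 < U.card by omega)
        exact (in_leaf trivial).sub (singleton_le.2 hx)
      · exact (hone r e2 (ihr e2) (by omega)).swap
    · by_cases e2 : r = .nil
      · subst e2
        exact hone l e1 (ihl e1) (by omega)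
      · obtain ⟨A, B, rfl, hA⟩ := split_card U (l.size + 1) (by omega)
        rw [card_add] at hc
        have hB : B.card = r.size + 1 := by omega
        obtain ⟨p, x, Y, rfl, -, h3⟩ := (ihl e1 A (nodup_of_le (le_add_right _ _) hU) hA).left e1 hA
        obtain ⟨q, y, Z, rfl, -, h4⟩ := (ihr e2 B (nodup_of_le (le_add_left _ _) hU) hB).left e2 hB
        have e : p ::ₘ x ::ₘ Y + q ::ₘ y ::ₘ Z = p ::ₘ q ::ₘ (x ::ₘ Y + y ::ₘ Z) := by
          simp only [← singleton_add]; abel
        rw [e] at hU ⊢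
        exact hPD (.node l r) (by simp) _ _ p q (fun _ => True) hU
          ⟨{x}, {y}, x ::ₘ Y, y ::ₘ Z, rfl, rfl, Or.inr ⟨x, Y, rfl, rfl, h3⟩, Or.inr ⟨y, Z, rfl, rfl, h4⟩⟩
          (fun _ _ => trivial) (Or.inl trivial) (Or.inl trivial)

end AE36
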